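import Pool.Agent.X227.UP.Two

/-!
# Hodge classes and Tate classes on all powers: only finitely many factors matter

Let `W` be étale cohomology with coefficients in an algebraic closure of `ℚ_ℓ` on the smooth
projective varieties over the algebraic closure of a number field, with the action of the Galois
group `Γ` (`GaloisData`; `G.χ` is the action on the Tate twists) and with the rational Hodge
structures which it has by the comparison with the cohomology of the complex manifolds
(`HodgeData`, for an isomorphism of the coefficients with `ℂ`). `TateInHodge` says that the Tate classes
on a variety, of all degrees, are linear combinations of Hodge classes, `HodgeInTate` says that the Hodge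
classes are Tate classes, and `MumfordTateAll` says that both hold on all powers of the variety, which
is the assertion of the problem for this variety.

Let `X i` be any family of odd-dimensional varieties, which may be infinite, such that homological and
numerical equivalence coincide on `X i`, the transcendental cohomology `T i` (the orthogonal
complement of all algebraic classes) is concentrated in the middle degree, the Mumford-Tate group and
also the group `Γ` act irreducibly on the Lie algebra `sp(T i)` of the operators on `T i` which are
skew for the intersection form, some element of `Γ` has two eigenvalues on `T i` whose quotient is not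
a root of unity, and these adjoint representations are pairwise not isomorphic, for both groups
(`TwoFamily`; examples: general complete intersections of odd dimension, general curves). Let `Z` be
ANY variety.

The theorem: there are TWO finite sets `B` and `B'` of indices, which work for all powers of `Z` at once:

(1) For all `n` and all lists `L` the Tate classes on `Z^(n+1) × ∏_{i ∈ L} X i` are linear combinations
of Hodge classes if and only if this holds for the products with the small sublists of `L`, which
consist of elements of `B`: for some degree `m` of the right parity the product of the numbers
(exponent of `X i`) + 1 and the sum of the `dim T i`, over the `i` which occur, are at most the Betti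
number `b_m(Z^(n+1))`.

(2) In the same way with `B'`: the Hodge classes are Tate classes if and only if this holds for the
products with the small sublists of `L` which consist of elements of `B'`.

(3) For all lists `L` the conjecture (Tate classes = linear combinations of Hodge classes, on all
powers) for `Z × ∏_{i ∈ L} X i` is equivalent to the conjecture for `Z × ∏_{i ∈ L, i ∈ B ∪ B'} X i`: all the
other factors can be omitted. So the conjecture for all powers of `Z` and of the infinitely many `X i`
together is a question about `Z` and finitely many of the `X i`.

(4) `∑_{i ∈ B} dim sp(T i) ≤ b ^ 2` and `∑_{i ∈ B'} dim sp(T i) ≤ b ^ 2` where `b` is the dimension of any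
sum of cohomology groups `H^m(Z)`, `m ∈ S`, which generates the cohomology algebra of `Z` (`GenBound`);
in particular `b = dim H(Z)` is possible for all `Z`, and `b = 2 dim A` if `Z = A` is an abelian variety.
No `i ∈ B` is separated from `Z` by the eigenvalues of an element of `Γ` (`MonApart`), no `i ∈ B'` is
separated from `Z` by Hodge types (`TypeSep`).

The idea of the proof: if the factor `X i` matters for some power of `Z` then `sp(T i)` acts by
derivations of `H(Z^(n+1))` which can be chosen to commute with all endomorphisms of `Z^(n+1)`, in
particular with the permutations of the factors; so they are determined by their restriction to the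
generators of the cohomology of one factor `Z`, and these restrictions are linearly independent for
the different `i`. No semisimplicity of the Galois representations is used.
-/

open CategoryTheory AlgebraicGeometry

universe u

namespace Pool.Agent.Results.MP_6c781a_ag.FinitelyManyFactors

open Pool.Agent.H914 Pool.Agent.H914.VarClass Pool.Agent.H914.VarClass.Obj Pool.Agent.Y132.AH
  Pool.Agent.X227.NP Pool.Agent.X227.UP

variable {k : Type u} [Field k] {𝒱 : VarClass k} {ops : CycleOps 𝒱}

theorem result (W : WeilCohomology.{u, 0} ops) [IsAlgClosed W.K] {Γ : Type} [Group Γ]
    (Ψ : HodgeData W) (G : GaloisData W Γ) {ι : Type} [DecidableEq ι] (X : ι → 𝒱.Obj)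
    (hX : TwoFamily Ψ G X) (Z : 𝒱.Obj) :
    ∃ B B' : Finset ι, GenBound W X Z B ∧ GenBound W X Z B' ∧
      (∀ i ∈ B, ¬MonApart G (X i) Z) ∧ (∀ i ∈ B', ¬TypeSep Ψ (X i) Z) ∧
      (∀ (n : ℕ) (L : List ι), TateInHodge Ψ G (prodList X (powN Z n) L) ↔
        ∀ L' : List ι, L'.Sublist L → SmallDim W X (powN Z n) B L' →
          TateInHodge Ψ G (prodList X (powN Z n) L')) ∧
      (∀ (n : ℕ) (L : List ι), HodgeInTate Ψ G (prodList X (powN Z n) L) ↔
        ∀ L' : List ι, L'.Sublist L → SmallDim W X (powN Z n) B' L' →
          HodgeInTate Ψ G (prodList X (powN Z n) L')) ∧
      ∀ L : List ι, MumfordTateAll Ψ G (prodList X Z L) ↔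
        MumfordTateAll Ψ G (prodList X Z (L.filter (· ∈ B ∪ B'))) := by
  obtain ⟨B, B', h1, h2, h3, h4⟩ := mt_both Ψ G Z hX.sp hX.gal
  exact ⟨B, B', h1, h2, fun i hi => (h3 i hi).1, h4⟩

end Pool.Agent.Results.MP_6c781a_ag.FinitelyManyFactors
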