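import Pool.Agent.X120.BM.Forms

/-!
# The Mumford-Tate conjecture for products of a variety and of the fibres over `b_i^(-t_i)` of
# families of Calabi-Yau type with big symplectic monodromy

Let `V_i`, `1 ≤ i ≤ k`, be variations of Hodge structure with `h^{w_i, 0} = 1` (of Calabi-Yau type) over the projective line without finitely many points, which come from families over `ℚ`, with a
nondegenerate alternating form, such that the monodromy group is dense in a symplectic group. The fibre over `x = 0` may be smooth or degenerate: we suppose that near `x = 0` the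
period matrix is `L_i(log (1/x)) P_i(x)`, where the entries of `P_i` are polynomials with any complex coefficients in a system of G-functions with rational coefficients which are solutions of a
differential system with a regular singularity with rational exponents at infinity, and the entries of `L_i(u)` are polynomials. Let `X_i` be the fibre over the rational
point `b_i^(-t_i)`, and let `Y` be a smooth projective variety over a number field `L`, with total cohomology `V_0` of dimension `n_0` and Hodge operator `Φ_0` (multiplication by `p` on `H^{p,q}`).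

Let `K = ℚ_ℓ` (or any field of characteristic zero). The group `Γ = Gal(\overline{L}/L)` acts on the étale cohomology, hence by the comparison isomorphisms on `V_0 ⊗ K` and `V_i ⊗ K`, by matrices `g_0(γ)`, `g_i(γ)`, and it respects
the polarisations up to the factor `χ(γ)^(w_i)`, `χ` given by the Tate structure. A Tate form of type `c` is a form over `K` which a subgroup of finite index multiplies by `χ^c`; for a form which corresponds to a class in `H^(2j)(X, ℚ_ℓ(j))` this
means that the class is a Tate class.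

**Theorem.** Let `b_i ≥ 2` be integers. There is a constant `C`, which depends only on the G-functions, the ranks, the degrees `e` of the polynomials, the `b_i` and on `n_0`, such that for all such `Y` and
`V_i`, for all but `C N^(k-1) log N` of the `N^k` points `x = (b_1^(-t_1), …, b_k^(-t_k))`, `1 ≤ t_i ≤ N` (for `k = 1` for all but `C log N` of the points `b^(-t)`), for all primes `ℓ` and all number fields `L`:

1. The Hodge classes in all `V_0^r × V_(τ(1)) × … × V_(τ(m))` are Tate classes if (and only if) the Hodge classes on the powers of `Y` are Tate classes.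

2. The Hodge classes span the Tate classes in all `V_0^r × V_(τ(1)) × … × V_(τ(m))` if and only if they do so for the powers of `Y` and all Tate classes in the `V_0^r × V_(τ(1)) × … × V_(τ(m))` are combinations of products of Tate classes on the
powers of `Y` and of polarisations.

So the inclusion `ℋ ⊆ 𝒯` in the Mumford-Tate conjecture holds for all `Y^r × X_1^(a_1) × … × X_k^(a_k)` if the rest of the cohomology of the `X_i` is generated by algebraic classes and the inclusion holds for the powers of `Y`, for example if `Y` is an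
abelian variety (Deligne). The condition on the Tate classes in 2. is a statement about Galois representations only: an open subgroup of `1 × ∏ Sp(V_i)(ℚ_ℓ)` is contained in the image of the Galois group. (For one family without `Y`,
this is known for all but finitely many rational points of the curve by Cadoret and Tamagawa.)

The inclusion `ℋ ⊆ 𝒯` was known for such products only if all the factors are abelian varieties and for the hypergeometric families. Here the families are general.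

Proof. By the counting theorem on geometric sequences the Mumford-Tate group contains `1 × ∏ Sp(V_i)` for these points (`Pool.Agent.X120.HG`, `Pool.Agent.X120.BM`). So the Hodge forms are combinations of products of
Hodge forms on `V_0^r` and of polarisations, by the first fundamental theorem for symplectic Lie algebras.
-/

set_option autoImplicit false

open Pool.Agent.X120.BM

namespace Pool.Agent.Results.MP_6c781a_ag.HodgeTateAtPowers

section
variable {n₀ k : ℕ} {n : Fin k → ℕ} {Γ K : Type} [Group Γ] [Field K] [Algebra ℚ K]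

/-- The action of `Γ` on `V_0 ⊗ K` and the `V_i ⊗ K`; `g_i(γ)` respects the form `A_i` up to the factor `χ(γ)^(w_i)`. -/
structure Action (n₀ : ℕ) (Γ K : Type) [Group Γ] [Field K] [Algebra ℚ K] (w : Fin k → ℕ)
    (A : ∀ i, Matrix (Fin (n i)) (Fin (n i)) ℚ) where
  g₀ : Γ →* Matrix (Fin n₀) (Fin n₀) K
  g : ∀ i, Γ →* Matrix (Fin (n i)) (Fin (n i)) K
  χ : Γ →* Kˣ
  respects : ∀ γ i, g i γ * (A i).map (algebraMap ℚ K) * (g i γ).transpose = ((χ γ : Kˣ) : K) ^ w i • (A i).map (algebraMap ℚ K)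

variable {w : Fin k → ℕ} {A : ∀ i, Matrix (Fin (n i)) (Fin (n i)) ℚ}

/-- `v` is a Tate form of type `q` on `V_0^r`: a subgroup of finite index multiplies it by `χ^q`. -/
def IsTate₀ (ρ : Action n₀ Γ K w A) {r : ℕ} (q : ℤ) (v : (Fin r → Fin n₀) → K) : Prop :=
  ∃ Δ : Subgroup Γ, Δ.FiniteIndex ∧ ∀ γ ∈ Δ, transport₀ (ρ.g₀ γ) v = ((ρ.χ γ : Kˣ) : K) ^ q • v

/-- `T` is a form on `V_0^r × V_(τ(1)) × … × V_(τ(m))` and a Tate form of type `c`: a subgroup of finite index multiplies it by `χ^c`. -/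
def IsTate (ρ : Action n₀ Γ K w A) {r m : ℕ} (τ : Fin m → Fin k) (c : ℤ) (T : Form n₀ r n m K) : Prop :=
  (∀ a I, T a I ≠ 0 → ∀ l, (I l).1 = τ l) ∧
    ∃ Δ : Subgroup Γ, Δ.FiniteIndex ∧ ∀ γ ∈ Δ, transport (ρ.g₀ γ) (fun i => ρ.g i γ) T = ((ρ.χ γ : Kˣ) : K) ^ c • T

/-- the combinations over `K` of the Hodge forms of type `q` on `V_0^r` -/
def hodgeSpan₀ (K : Type) [Field K] [Algebra ℚ K] (Φ₀ : Matrix (Fin n₀) (Fin n₀) ℂ) (r : ℕ) (q : ℤ) :
    Submodule K ((Fin r → Fin n₀) → K) :=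
  Submodule.span K {S | ∃ v : (Fin r → Fin n₀) → ℚ, IsHodgeForm₀ Φ₀ q v ∧ S = castForm₀ K v}

/-- the combinations over `K` of the Hodge forms of type `c` on `V_0^r × V_(τ(1)) × … × V_(τ(m))` -/
def hodgeSpan (K : Type) [Field K] [Algebra ℚ K] (Φ₀ : Matrix (Fin n₀) (Fin n₀) ℂ) (Φ : ∀ i, Matrix (Fin (n i)) (Fin (n i)) ℂ)
    (r : ℕ) {m : ℕ} (τ : Fin m → Fin k) (c : ℤ) : Submodule K (Form n₀ r n m K) :=
  Submodule.span K {S | ∃ T : Form n₀ r n m ℚ, IsHodgeForm Φ₀ Φ τ c T ∧ S = castForm K T}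

/-- All Hodge forms on the `V_0^r` are Tate forms. -/
def HodgeInTate₀ (Φ₀ : Matrix (Fin n₀) (Fin n₀) ℂ) (ρ : Action n₀ Γ K w A) : Prop :=
  ∀ (r : ℕ) (q : ℤ), ∀ v ∈ hodgeSpan₀ K Φ₀ r q, IsTate₀ ρ q v

/-- All Hodge forms on the `V_0^r × V_(τ(1)) × … × V_(τ(m))` are Tate forms. -/
def HodgeInTate (Φ₀ : Matrix (Fin n₀) (Fin n₀) ℂ) (Φ : ∀ i, Matrix (Fin (n i)) (Fin (n i)) ℂ) (ρ : Action n₀ Γ K w A) : Prop :=
  ∀ (r m : ℕ) (τ : Fin m → Fin k) (c : ℤ), ∀ T ∈ hodgeSpan K Φ₀ Φ r τ c, IsTate ρ τ c T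

/-- All Tate forms on the `V_0^r` are combinations of Hodge forms. -/
def TateInHodge₀ (Φ₀ : Matrix (Fin n₀) (Fin n₀) ℂ) (ρ : Action n₀ Γ K w A) : Prop :=
  ∀ (r : ℕ) (q : ℤ) (v : (Fin r → Fin n₀) → K), IsTate₀ ρ q v → v ∈ hodgeSpan₀ K Φ₀ r q

/-- All Tate forms on the `V_0^r × V_(τ(1)) × … × V_(τ(m))` are combinations of Hodge forms. -/
def TateInHodge (Φ₀ : Matrix (Fin n₀) (Fin n₀) ℂ) (Φ : ∀ i, Matrix (Fin (n i)) (Fin (n i)) ℂ) (ρ : Action n₀ Γ K w A) : Prop :=
  ∀ (r m : ℕ) (τ : Fin m → Fin k) (c : ℤ) (T : Form n₀ r n m K), IsTate ρ τ c T → T ∈ hodgeSpan K Φ₀ Φ r τ c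

/-- the products `v ⊗ A ⊗ … ⊗ A`, of type `c`, of a Tate form `v` on `V_0^r` and of the `A_i`, over matchings of the variables which respect `τ` -/
def tateProducts (ρ : Action n₀ Γ K w A) (r : ℕ) {m : ℕ} (τ : Fin m → Fin k) (c : ℤ) : Set (Form n₀ r n m K) :=
  {S | ∃ (s : ℕ) (e : Fin s × Fin 2 ≃ Fin m) (c' : Fin s → Fin k) (v : (Fin r → Fin n₀) → K),
    (∀ l, c' l = τ (e (l, 0)) ∧ c' l = τ (e (l, 1))) ∧
    IsTate₀ ρ (c - ∑ l, (w (c' l) : ℤ)) v ∧ S = fun a I => v a * algebraMap ℚ K (pairing A e c' I)}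

/-- All Tate forms on the `V_0^r × V_(τ(1)) × … × V_(τ(m))` are combinations of products of Tate forms on the `V_0^r` and of the `A_i`. -/
def Independent (ρ : Action n₀ Γ K w A) : Prop :=
  ∀ (r m : ℕ) (τ : Fin m → Fin k) (c : ℤ) (T : Form n₀ r n m K), IsTate ρ τ c T → T ∈ Submodule.span K (tateProducts ρ r τ c)

theorem tate0_add {ρ : Action n₀ Γ K w A} {r : ℕ} {q : ℤ} {v v' : (Fin r → Fin n₀) → K} (h : IsTate₀ ρ q v) (h' : IsTate₀ ρ q v') :
    IsTate₀ ρ q (v + v') := by
  obtain ⟨Δ, h1, h2⟩ := h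
  obtain ⟨Δ', h1', h2'⟩ := h'
  refine ⟨Δ ⊓ Δ', inferInstance, fun γ hγ => ?_⟩
  have e1 : transport₀ (ρ.g₀ γ) (v + v') = transport₀ (ρ.g₀ γ) v + transport₀ (ρ.g₀ γ) v' := by
    funext a
    simp only [transport₀, Pi.add_apply, mul_add, Finset.sum_add_distrib]
  rw [e1, h2 γ hγ.1, h2' γ hγ.2, smul_add]

theorem tate0_smul {ρ : Action n₀ Γ K w A} {r : ℕ} {q : ℤ} {v : (Fin r → Fin n₀) → K} (h : IsTate₀ ρ q v) (x : K) :
    IsTate₀ ρ q (x • v) := by
  obtain ⟨Δ, h1, h2⟩ := h
  refine ⟨Δ, h1, fun γ hγ => ?_⟩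
  have e1 : transport₀ (ρ.g₀ γ) (x • v) = x • transport₀ (ρ.g₀ γ) v := by
    funext a
    simp only [transport₀, Pi.smul_apply, smul_eq_mul, Finset.mul_sum]
    exact Finset.sum_congr rfl fun b _ => by ring
  rw [e1, h2 γ hγ, smul_comm]

theorem tate0_zero {ρ : Action n₀ Γ K w A} {r : ℕ} {q : ℤ} : IsTate₀ ρ q (0 : (Fin r → Fin n₀) → K) := by
  refine ⟨⊤, inferInstance, fun γ _ => ?_⟩
  funext a
  simp [transport₀]

theorem tate_add {ρ : Action n₀ Γ K w A} {r m : ℕ} {τ : Fin m → Fin k} {c : ℤ} {T T' : Form n₀ r n m K} (h : IsTate ρ τ c T)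
    (h' : IsTate ρ τ c T') : IsTate ρ τ c (T + T') := by
  refine ⟨fun a I hI => ?_, ?_⟩
  · by_cases h0 : T a I = 0
    · refine h'.1 a I fun h1 => hI ?_
      show T a I + T' a I = 0
      rw [h0, h1, add_zero]
    · exact h.1 a I h0
  · obtain ⟨Δ, h1, h2⟩ := h.2
    obtain ⟨Δ', h1', h2'⟩ := h'.2
    refine ⟨Δ ⊓ Δ', inferInstance, fun γ hγ => ?_⟩
    rw [transport_add, h2 γ hγ.1, h2' γ hγ.2, smul_add]

theorem tate_smul {ρ : Action n₀ Γ K w A} {r m : ℕ} {τ : Fin m → Fin k} {c : ℤ} {T : Form n₀ r n m K} (h : IsTate ρ τ c T) (x : K) :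
    IsTate ρ τ c (x • T) := by
  refine ⟨fun a I hI => h.1 a I (right_ne_zero_of_mul (a := x) hI), ?_⟩
  obtain ⟨Δ, h1, h2⟩ := h.2
  refine ⟨Δ, h1, fun γ hγ => ?_⟩
  rw [transport_smul, h2 γ hγ, smul_comm]

theorem tate_zero {ρ : Action n₀ Γ K w A} {r m : ℕ} {τ : Fin m → Fin k} {c : ℤ} : IsTate ρ τ c (0 : Form n₀ r n m K) := by
  refine ⟨fun a I hI => absurd rfl hI, ⊤, inferInstance, fun γ _ => ?_⟩
  rw [transport_zero, smul_zero]

/-- a product of a Tate form and of the `A_i` is a Tate form -/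
theorem tate_product {ρ : Action n₀ Γ K w A} {r m s : ℕ} {τ : Fin m → Fin k} {c : ℤ} (e : Fin s × Fin 2 ≃ Fin m) (c' : Fin s → Fin k)
    (hc' : ∀ l, c' l = τ (e (l, 0)) ∧ c' l = τ (e (l, 1))) {v : (Fin r → Fin n₀) → ℚ}
    (hv : IsTate₀ ρ (c - ∑ l, (w (c' l) : ℤ)) (castForm₀ K v)) :
    IsTate ρ τ c (castForm K fun a I => v a * pairing A e c' I) := by
  refine ⟨fun a I hI => ?_, ?_⟩
  · have h0 : v a * pairing A e c' I ≠ 0 := fun h => hI (by
      show algebraMap ℚ K (v a * pairing A e c' I) = 0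
      rw [h, map_zero])
    have h1 : Pool.Agent.X120.HG.pq A e c' I ≠ 0 := right_ne_zero_of_mul (a := v a) h0
    intro l
    obtain ⟨⟨l', ε⟩, rfl⟩ := e.surjective l
    have h3 := Pool.Agent.X120.HG.pq_type h1 l'
    have h4 : ε = 0 ∨ ε = 1 := by
      fin_cases ε
      · exact Or.inl rfl
      · exact Or.inr rfl
    rcases h4 with rfl | rfl
    · rw [h3.1, (hc' l').1]
    · rw [h3.2, (hc' l').2]
  · obtain ⟨Δ, h1, h2⟩ := hv
    refine ⟨Δ, h1, fun γ hγ => ?_⟩
    have hχ : ((ρ.χ γ : Kˣ) : K) ≠ 0 := (ρ.χ γ).ne_zero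
    rw [transport_product (μ := fun i => ((ρ.χ γ : Kˣ) : K) ^ w i) (fun i => ρ.respects γ i) e c' v, h2 γ hγ]
    set χ : K := ((ρ.χ γ : Kˣ) : K) with hχd
    funext a I
    show χ ^ (c - ∑ l, (w (c' l) : ℤ)) * castForm₀ K v a * ((∏ l, χ ^ w (c' l)) * algebraMap ℚ K (pairing A e c' I)) =
      χ ^ c * algebraMap ℚ K (v a * pairing A e c' I)
    have e1 : (∏ l, χ ^ w (c' l)) = χ ^ (∑ l, (w (c' l) : ℤ)) := by
      rw [Finset.prod_pow_eq_pow_sum, ← zpow_natCast]
      push_cast
      rfl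
    rw [e1, map_mul]
    have e2 : χ ^ c = χ ^ (c - ∑ l, (w (c' l) : ℤ)) * χ ^ (∑ l, (w (c' l) : ℤ)) := by
      rw [← zpow_add₀ hχ]
      congr 1
      ring
    rw [e2]
    show _ = _ * (castForm₀ K v a * _)
    ring

/-- forms on `V_0^r` as forms without the other variables -/
def up {r : ℕ} (v : (Fin r → Fin n₀) → K) : Form n₀ r n 0 K := fun a _ => v a

theorem up_transport {r : ℕ} (g₀ : Matrix (Fin n₀) (Fin n₀) K) (g : ∀ i, Matrix (Fin (n i)) (Fin (n i)) K)
    (v : (Fin r → Fin n₀) → K) : transport g₀ g (up v : Form n₀ r n 0 K) = up (transport₀ g₀ v) := by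
  funext a I
  unfold transport transport₀ up
  refine Finset.sum_congr rfl fun b _ => ?_
  rw [Fintype.sum_unique]
  simp

theorem tate_up {ρ : Action n₀ Γ K w A} {r : ℕ} {c : ℤ} {v : (Fin r → Fin n₀) → K} (τ : Fin 0 → Fin k) :
    IsTate ρ τ c (up v : Form n₀ r n 0 K) ↔ IsTate₀ ρ c v := by
  constructor
  · rintro ⟨-, Δ, h1, h2⟩
    refine ⟨Δ, h1, fun γ hγ => ?_⟩
    have h3 := h2 γ hγ
    rw [up_transport] at h3
    funext a
    exact congrFun (congrFun h3 a) Fin.elim0
  · rintro ⟨Δ, h1, h2⟩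
    refine ⟨fun a I _ l => Fin.elim0 l, Δ, h1, fun γ hγ => ?_⟩
    rw [up_transport, h2 γ hγ]
    rfl

theorem hodge_up {Φ₀ : Matrix (Fin n₀) (Fin n₀) ℂ} {Φ : ∀ i, Matrix (Fin (n i)) (Fin (n i)) ℂ} {r : ℕ} {c : ℤ} (τ : Fin 0 → Fin k)
    {T : Form n₀ r n 0 ℚ} : IsHodgeForm Φ₀ Φ τ c T ↔ IsHodgeForm₀ Φ₀ c fun a => T a Fin.elim0 := by
  constructor
  · rintro ⟨-, h⟩ a
    have h1 := congrFun (congrFun h a) Fin.elim0
    unfold derivation at h1
    rw [Finset.univ_eq_empty (α := Fin 0), Finset.sum_empty, add_zero] at h1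
    exact h1
  · intro h
    refine ⟨fun a I _ l => Fin.elim0 l, ?_⟩
    funext a I
    unfold derivation
    rw [Finset.univ_eq_empty (α := Fin 0), Finset.sum_empty, add_zero]
    have h1 := h a
    rw [Subsingleton.elim I Fin.elim0]
    exact h1

theorem span_up {Φ₀ : Matrix (Fin n₀) (Fin n₀) ℂ} {Φ : ∀ i, Matrix (Fin (n i)) (Fin (n i)) ℂ} {r : ℕ} {c : ℤ} (τ : Fin 0 → Fin k)
    {v : (Fin r → Fin n₀) → K} : (up v : Form n₀ r n 0 K) ∈ hodgeSpan K Φ₀ Φ r τ c ↔ v ∈ hodgeSpan₀ K Φ₀ r c := by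
  constructor
  · intro h
    have key : ∀ T : Form n₀ r n 0 K, T ∈ hodgeSpan K Φ₀ Φ r τ c → (fun a => T a Fin.elim0) ∈ hodgeSpan₀ K Φ₀ r c := by
      intro T hT
      unfold hodgeSpan at hT
      induction hT using Submodule.span_induction with
      | mem x hx =>
        obtain ⟨T, hT, rfl⟩ := hx
        exact Submodule.subset_span ⟨_, (hodge_up τ).1 hT, rfl⟩
      | zero => exact Submodule.zero_mem _
      | add x y _ _ hx hy => exact Submodule.add_mem _ hx hy
      | smul q x _ hx => exact Submodule.smul_mem _ q hx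
    exact key _ h
  · intro h
    unfold hodgeSpan₀ at h
    induction h using Submodule.span_induction with
    | mem x hx =>
      obtain ⟨v, hv, rfl⟩ := hx
      exact Submodule.subset_span ⟨fun a _ => v a, (hodge_up τ).2 hv, rfl⟩
    | zero => exact Submodule.zero_mem _
    | add x y _ _ hx hy => exact Submodule.add_mem _ hx hy
    | smul q x _ hx => exact Submodule.smul_mem _ q hx

/-- **Hodge forms are Tate forms.** -/
theorem hodge_tate {Φ₀ : Matrix (Fin n₀) (Fin n₀) ℂ} {Φ : ∀ i, Matrix (Fin (n i)) (Fin (n i)) ℂ}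
    (hgen : AllGenerated Φ₀ w A Φ) (ρ : Action n₀ Γ K w A) : HodgeInTate Φ₀ Φ ρ ↔ HodgeInTate₀ Φ₀ ρ := by
  constructor
  · intro h r q v hv
    exact (tate_up Fin.elim0).1 (h r 0 Fin.elim0 q (up v) ((span_up Fin.elim0).2 hv))
  · intro h0 r m τ c T hT
    have hcast : ∀ T : Form n₀ r n m ℚ, IsHodgeForm Φ₀ Φ τ c T → IsTate ρ τ c (castForm K T) := by
      intro T hT
      have h1 := hgen r m τ c T hT
      clear hT
      induction h1 using Submodule.span_induction with
      | mem x hx =>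
        obtain ⟨s, e', c', v, hc', hv, rfl⟩ := hx
        exact tate_product e' c' hc' (h0 r _ _ (Submodule.subset_span ⟨v, hv, rfl⟩))
      | zero => rw [castForm_zero]; exact tate_zero
      | add x y _ _ hx hy => rw [castForm_add]; exact tate_add hx hy
      | smul q x _ hx => rw [castForm_smul]; exact tate_smul hx _
    unfold hodgeSpan at hT
    induction hT using Submodule.span_induction with
    | mem x hx =>
      obtain ⟨T, hT, rfl⟩ := hx
      exact hcast T hT
    | zero => exact tate_zero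
    | add x y _ _ hx hy => exact tate_add hx hy
    | smul q x _ hx => exact tate_smul hx _

theorem prod_mem {Φ₀ : Matrix (Fin n₀) (Fin n₀) ℂ} {Φ : ∀ i, Matrix (Fin (n i)) (Fin (n i)) ℂ}
    (hΦ : ∀ i, Φ i * Pool.Agent.X120.HG.cq (A i) + Pool.Agent.X120.HG.cq (A i) * (Φ i).transpose = (w i : ℂ) • Pool.Agent.X120.HG.cq (A i))
    {r m s : ℕ} {τ : Fin m → Fin k} {c : ℤ} (e : Fin s × Fin 2 ≃ Fin m)
    (c' : Fin s → Fin k) (hc' : ∀ l, c' l = τ (e (l, 0)) ∧ c' l = τ (e (l, 1))) {v : (Fin r → Fin n₀) → K}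
    (hv : v ∈ hodgeSpan₀ K Φ₀ r (c - ∑ l, (w (c' l) : ℤ))) :
    (fun a I => v a * algebraMap ℚ K (pairing A e c' I) : Form n₀ r n m K) ∈ hodgeSpan K Φ₀ Φ r τ c := by
  unfold hodgeSpan₀ at hv
  induction hv using Submodule.span_induction with
  | mem x hx =>
    obtain ⟨v, hv, rfl⟩ := hx
    refine Submodule.subset_span ⟨_, product_hodge hΦ e c' hc' hv, ?_⟩
    funext a I
    exact (map_mul (algebraMap ℚ K) _ _).symm
  | zero =>
    have e1 : (fun a I => (0 : (Fin r → Fin n₀) → K) a * algebraMap ℚ K (pairing A e c' I) : Form n₀ r n m K) = 0 := by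
      funext a I
      exact zero_mul _
    rw [e1]
    exact Submodule.zero_mem _
  | add x y _ _ hx hy =>
    have e1 : (fun a I => (x + y) a * algebraMap ℚ K (pairing A e c' I) : Form n₀ r n m K) =
        (fun a I => x a * algebraMap ℚ K (pairing A e c' I)) + fun a I => y a * algebraMap ℚ K (pairing A e c' I) := by
      funext a I
      exact add_mul _ _ _
    rw [e1]
    exact Submodule.add_mem _ hx hy
  | smul q x _ hx =>
    have e1 : (fun a I => (q • x) a * algebraMap ℚ K (pairing A e c' I) : Form n₀ r n m K) =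
        q • (fun a I => x a * algebraMap ℚ K (pairing A e c' I)) := by
      funext a I
      exact mul_assoc _ _ _
    rw [e1]
    exact Submodule.smul_mem _ q hx

/-- **The Mumford-Tate conjecture.** -/
theorem mumford_tate {Φ₀ : Matrix (Fin n₀) (Fin n₀) ℂ} {Φ : ∀ i, Matrix (Fin (n i)) (Fin (n i)) ℂ}
    (hΦ : ∀ i, Φ i * Pool.Agent.X120.HG.cq (A i) + Pool.Agent.X120.HG.cq (A i) * (Φ i).transpose = (w i : ℂ) • Pool.Agent.X120.HG.cq (A i))
    (hgen : AllGenerated Φ₀ w A Φ) (ρ : Action n₀ Γ K w A) : (HodgeInTate Φ₀ Φ ρ ∧ TateInHodge Φ₀ Φ ρ) ↔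
      HodgeInTate₀ Φ₀ ρ ∧ TateInHodge₀ Φ₀ ρ ∧ Independent ρ := by
  constructor
  · rintro ⟨h1, h2⟩
    have h10 := (hodge_tate hgen ρ).1 h1
    refine ⟨h10, fun r q v hv => (span_up Fin.elim0).1 (h2 r 0 Fin.elim0 q (up v) ((tate_up Fin.elim0).2 hv)), ?_⟩
    intro r m τ c T hT
    have h3 := h2 r m τ c T hT
    unfold hodgeSpan at h3
    clear hT
    induction h3 using Submodule.span_induction with
    | mem x hx =>
      obtain ⟨T, hT, rfl⟩ := hx
      have h4 := hgen r m τ c T hT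
      clear hT
      induction h4 using Submodule.span_induction with
      | mem x hx =>
        obtain ⟨s, e', c', v, hc', hv, rfl⟩ := hx
        refine Submodule.subset_span ⟨s, e', c', castForm₀ K v, hc', h10 r _ _ (Submodule.subset_span ⟨v, hv, rfl⟩), ?_⟩
        funext a I
        exact map_mul (algebraMap ℚ K) _ _
      | zero => rw [castForm_zero]; exact Submodule.zero_mem _
      | add x y _ _ hx hy => rw [castForm_add]; exact Submodule.add_mem _ hx hy
      | smul q x _ hx => rw [castForm_smul]; exact Submodule.smul_mem _ _ hx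
    | zero => exact Submodule.zero_mem _
    | add x y _ _ hx hy => exact Submodule.add_mem _ hx hy
    | smul q x _ hx => exact Submodule.smul_mem _ q hx
  · rintro ⟨h1, h2, h3⟩
    refine ⟨(hodge_tate hgen ρ).2 h1, fun r m τ c T hT => ?_⟩
    have h4 := h3 r m τ c T hT
    clear hT
    induction h4 using Submodule.span_induction with
    | mem x hx =>
      obtain ⟨s, e', c', v, hc', hv, rfl⟩ := hx
      exact prod_mem hΦ e' c' hc' (h2 r _ v hv)
    | zero => exact Submodule.zero_mem _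
    | add x y _ _ hx hy => exact Submodule.add_mem _ hx hy
    | smul q x _ hx => exact Submodule.smul_mem _ q hx

end

/-- For all Hodge structures `H_i` with forms `A_i` on the fibres over `x_i = b_i^(-t_i)` (with the part of type `(w_i, 0)` given by the
period vector), for all actions of groups `Γ` over all fields `K`: the Hodge forms on the products are Tate forms if and only if the Hodge forms on the `V_0^r` are Tate forms; and they span the Tate forms
if and only if they do so for the `V_0^r` and the Tate forms on the products are generated by the Tate forms on the `V_0^r` and by the `A_i`. -/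
def Good {n₀ k e : ℕ} {G : Fin k → GSystem} {n : Fin k → ℕ} (Φ₀ : Matrix (Fin n₀) (Fin n₀) ℂ)
    (F : ∀ i, Periods (G i) (n i) e) (w b t : Fin k → ℕ) : Prop :=
  ∀ (A : ∀ i, Matrix (Fin (n i)) (Fin (n i)) ℚ) (H : ∀ i, ℕ → Submodule ℂ (Fin (n i) → ℂ)), IsFibre F w b t A H →
    ∀ Φ : ∀ i, Matrix (Fin (n i)) (Fin (n i)) ℂ, (∀ i, IsHodgeOperator (w i) (H i) (Φ i)) →
    ∀ (Γ K : Type) [Group Γ] [Field K] [Algebra ℚ K] (ρ : Action n₀ Γ K w A),
      (HodgeInTate Φ₀ Φ ρ ↔ HodgeInTate₀ Φ₀ ρ) ∧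
      ((HodgeInTate Φ₀ Φ ρ ∧ TateInHodge Φ₀ Φ ρ) ↔ HodgeInTate₀ Φ₀ ρ ∧ TateInHodge₀ Φ₀ ρ ∧ Independent ρ)

/-- **The theorem.** -/
theorem result (n₀ k e : ℕ) (G : Fin k → GSystem) (n : Fin k → ℕ) (b : Fin k → ℕ) (hb : ∀ i, 2 ≤ b i) :
    ∃ C : ℝ, 0 ≤ C ∧ ∀ Φ₀ : Matrix (Fin n₀) (Fin n₀) ℂ, IsSplitOperator Φ₀ →
      ∀ F : ∀ i, Periods (G i) (n i) e, ∀ w : Fin k → ℕ, ∀ N : ℕ, 2 ≤ N →
      (({t : Fin k → ℕ | (∀ i, 1 ≤ t i ∧ t i ≤ N) ∧ ¬ Good Φ₀ F w b t}.ncard : ℕ) : ℝ) * N ≤
        C * (N : ℝ) ^ k * Real.log N := by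
  classical
  obtain ⟨C, hC, hcount⟩ := count n₀ e G n b hb
  refine ⟨C, hC, ?_⟩
  intro Φ₀ hΦ₀ F w N hN
  refine hcount Φ₀ hΦ₀ F w N hN _ fun t ht => ⟨ht.1, fun hgood => ht.2 ?_⟩
  intro A H hF Φ hop Γ K _ _ _ ρ
  have hH : ∀ i, IsHodge (w i) (A i) (H i) := fun i => (hF i).2.1
  have hΦ := fun i => (hH i).hs.op (hop i)
  have hgen := generated_of hH (hgood A H hF) hop
  exact ⟨hodge_tate hgen ρ, mumford_tate hΦ hgen ρ⟩

end Pool.Agent.Results.MP_6c781a_ag.HodgeTateAtPowers
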