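import Pool.Agent.X227.MM.Abs

/-!
# Hodge classes and Tate classes on products of any variety with varieties of symplectic type

Let `W` be étale cohomology with coefficients in an algebraic closure of `ℚ_ℓ` on the smooth
projective varieties over the algebraic closure of a number field, with the action of the Galois
group `Γ` (`GaloisData`; `G.χ` is the action on the Tate twists) and with the rational Hodge
structures which it has by the comparison with the cohomology of the complex manifolds
(`HodgeData`, for an isomorphism of the coefficients with `ℂ`).
`MumfordTate` says that the span of the Hodge classes of degree `2 j` on a variety is the space of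
the Tate classes of degree `2 j`, for all `j`, and `MumfordTateAll` says this for all powers of the
variety, which is the assertion of the problem.

Let `X i` be any family of odd-dimensional varieties, which may be infinite, such that homological and
numerical equivalence coincide on `X i`, the transcendental cohomology `T i` (the orthogonal
complement of all algebraic classes) is concentrated in the middle degree and not zero, the
Mumford-Tate group and the group `Γ` act irreducibly on the Lie algebra of the operators on `T i`
which are skew for the intersection form, some element of `Γ` has two eigenvalues on `T i` whose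
quotient is not a root of unity, and these adjoint representations are pairwise not isomorphic. Let
`Z` be ANY variety.

(1) There is a finite set `B` of indices with `∑ dim T i ≤ 2 dim H(Z)` such that the conjecture holds
for the product of `Z` with any powers of the `X i` if and only if it holds for those subproducts with
`i ∈ B` for which, for some degree `m` of the right parity, the product of the numbers (exponent of
`X i`) + 1 and the sum of the `dim T i`, over the `i` which occur, are at most the Betti number
`b_m(Z)`. No `i ∈ B` is separated from `Z` by Hodge types and by slopes.

(2) If all `X i` are separated from `Z` by slopes and by Hodge types, then the conjecture for all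
powers of the product of `Z` with any powers of the `X i` is equivalent to the conjecture for all
powers of `Z`.

(3) The conjecture holds for all powers of all products of powers of the `X i`.
-/

open CategoryTheory AlgebraicGeometry

universe u

namespace Pool.Agent.Results.MP_6c781a_ag.HodgeTateProducts

open Pool.Agent.H914 Pool.Agent.H914.VarClass Pool.Agent.H914.VarClass.Obj Pool.Agent.Y132.AH
  Pool.Agent.X227.MM

variable {k : Type u} [Field k] {𝒱 : VarClass k} {ops : CycleOps 𝒱}

theorem result (W : WeilCohomology.{u, 0} ops) [IsAlgClosed W.K] {Γ : Type} [Group Γ]
    (Ψ : HodgeData W) (G : GaloisData W Γ) {ι : Type} [DecidableEq ι] (X : ι → 𝒱.Obj)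
    (hH : SpFamily Ψ X) (hG : BigFamily G X) (Z : 𝒱.Obj) :
    (∃ B : Finset ι, ∑ i ∈ B, trDim W (X i) ≤ 2 * totDim W Z ∧
      (∀ i ∈ B, ¬(SlopeSep G (X i) Z ∧ TypeSep Ψ (X i) Z)) ∧
      ∀ L : List ι, MumfordTate Ψ G (prodList X Z L) ↔
        ∀ L' : List ι, L'.Sublist L → SmallDim W X Z B L' →
          MumfordTate Ψ G (prodList X Z L')) ∧
    ((∀ i, SlopeSep G (X i) Z ∧ TypeSep Ψ (X i) Z) →
      ∀ L : List ι, (MumfordTateAll Ψ G (prodList X Z L) ↔ MumfordTateAll Ψ G Z)) ∧
    (Z.dim = 0 → ∀ L : List ι, MumfordTateAll Ψ G (prodList X Z L)) :=
  ⟨mt_iff' G Ψ Z hH hG, fun h L => mt_all G Ψ Z hH (bigFamily_ad G (spFamily_odd Ψ hH) hG)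
    (fun i => (h i).1) (fun i => (h i).2) L, fun hZ L => mt_products Ψ G hZ hH hG L⟩

end Pool.Agent.Results.MP_6c781a_ag.HodgeTateProducts
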