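import Pool.Agent.X208.SP.MTAll

/-!
# Tate classes and Hodge classes on `Y × Sym ^ n X`

Let `W` be a Weil cohomology theory with algebraically closed coefficients, with rational Hodge
structures `Ψ` and an action `G` of a group `Γ` with the formal properties of a Galois action (in the
intended use the étale cohomology of varieties over a number field, identified with the singular
cohomology). The classes on `Y × Sym ^ n X` are the classes on `Y × X ^ n` which are symmetric in the
factors `X`. Let `t^j(n)`, `h^j(n)` and `m^j(n)` be the dimensions of the spaces of the Tate classes,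
of the linear combinations of the Hodge classes, and of the classes which are both, of degree `2 j`
on `Y × Sym ^ n X`. We prove:

* if some Tate class on `X` is not a linear combination of Hodge classes then for some `c ≤ dim X`
  and for all `Y`, `n` and `j`: `∑ i, m^(j - i c)(n - i) ≤ t^j(n)`;
* if some Hodge class on `X` is not a Tate class then for some `c ≤ dim X` and for all `Y`, `n` and
  `j`: `∑ i, m^(j - i c)(n - i) ≤ h^j(n)`;
* so if for one `Y` the classes which are both are a positive part of the Tate classes on
  `Y × Sym ^ n X` then all Tate classes on `X` are combinations of Hodge classes, and if they are a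
  positive part of the combinations of Hodge classes then all Hodge classes on `X` are Tate classes;
* the two kinds of classes are the same on all powers of `X` if and only if for all `m` the classes
  which are both are a positive part of both on `X × Sym ^ n (X ^ m)`.
-/

open Pool.Agent.H914 Pool.Agent.H914.VarClass.Obj Pool.Agent.H914.WeilCohomology
  Pool.Agent.Y132.AH Pool.Agent.X208.SP

universe u

namespace Pool.Agent.Results.MP_6c781a_ag.PositiveProportion

theorem result {k : Type u} [Field k] {𝒱 : VarClass k} {ops : CycleOps 𝒱}
    {W : WeilCohomology.{u, 0} ops} [IsAlgClosed W.K] {Γ : Type} [Group Γ] (G : GaloisData W Γ)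
    (Ψ : HodgeData W) (X : 𝒱.Obj) :
    (¬ TateInHodge Ψ G X → ∃ c ≤ X.dim, ∀ (Y : 𝒱.Obj) (n j : ℕ),
      stairSum c n j (commonNum Ψ G Y X) ≤ tateNum G Y X n j) ∧
    (¬ HodgeInTate Ψ G X → ∃ c ≤ X.dim, ∀ (Y : 𝒱.Obj) (n j : ℕ),
      stairSum c n j (commonNum Ψ G Y X) ≤ hodgeNum Ψ Y X n j) ∧
    (∀ Y : 𝒱.Obj, (1 : W.H Y) ≠ 0 →
      (PosPart Y X (commonNum Ψ G Y X) (tateNum G Y X) → TateInHodge Ψ G X) ∧
      (PosPart Y X (commonNum Ψ G Y X) (hodgeNum Ψ Y X) → HodgeInTate Ψ G X)) ∧
    (MumfordTateAll Ψ G X ↔ ∀ m,
      PosPart X (powN X m) (commonNum Ψ G X (powN X m)) (tateNum G X (powN X m)) ∧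
      PosPart X (powN X m) (commonNum Ψ G X (powN X m)) (hodgeNum Ψ X (powN X m))) :=
  mt_main G Ψ X

end Pool.Agent.Results.MP_6c781a_ag.PositiveProportion
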